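import Pool.Agent.Q134.Fan.Ray

/-!
Simplicial fans given by facets with matched ridges: the number of cones which contain a generic
point does not depend on the point.
-/

set_option autoImplicit false

namespace Pool.Agent.Q134.Fan

open Finset

/-- A finite family of full-dimensional simplicial cones in `E` whose ridges are matched in pairs, the
two cones at a ridge lying on different sides. -/
structure FanData (E : Type*) [AddCommGroup E] [Module ℝ E] (ι I : Type*) (n : ℕ) where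
  u : ι → E
  vtx : I → Fin (n + 1) → ι
  inj : ∀ f, Function.Injective (vtx f)
  c : I → Fin (n + 1) → E →ₗ[ℝ] ℝ
  dual : ∀ f k l, c f k (u (vtx f l)) = if k = l then 1 else 0
  span : ∀ f y, ∑ k, c f k y • u (vtx f k) = y
  nb : I × Fin (n + 1) → I × Fin (n + 1)
  nb_nb : ∀ x, nb (nb x) = x
  ridge : ∀ f k j, vtx f (k.succAbove j) = vtx (nb (f, k)).1 ((nb (f, k)).2.succAbove j)
  side : ∀ f k, c f k (u (vtx (nb (f, k)).1 (nb (f, k)).2)) < 0

namespace FanData

variable {E : Type*} [AddCommGroup E] [Module ℝ E] {ι I : Type*} {n : ℕ}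
variable (D : FanData E ι I n)

theorem c_self (f : I) (k : Fin (n + 1)) : D.c f k (D.u (D.vtx f k)) = 1 := by
  rw [D.dual, if_pos rfl]

theorem c_ne (f : I) {k l : Fin (n + 1)} (h : k ≠ l) : D.c f k (D.u (D.vtx f l)) = 0 := by
  rw [D.dual, if_neg h]

/-- change of the coordinate at a ridge -/
theorem coord_mul (f : I) (k : Fin (n + 1)) (y : E) :
    D.c f k y = D.c (D.nb (f, k)).1 (D.nb (f, k)).2 y *
      D.c f k (D.u (D.vtx (D.nb (f, k)).1 (D.nb (f, k)).2)) := by
  conv_lhs => rw [← D.span (D.nb (f, k)).1 y]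
  rw [map_sum, Fin.sum_univ_succAbove _ (D.nb (f, k)).2]
  rw [Finset.sum_eq_zero, add_zero, map_smul, smul_eq_mul]
  intro j _
  rw [map_smul, ← D.ridge, D.c_ne f (Fin.succAbove_ne k j).symm, smul_zero]

theorem coord_ridge (f : I) (k : Fin (n + 1)) (y : E) (hy : D.c f k y = 0) (j : Fin n) :
    D.c f (k.succAbove j) y =
      D.c (D.nb (f, k)).1 ((D.nb (f, k)).2.succAbove j) y := by
  conv_rhs => rw [← D.span f y]
  rw [map_sum, Fin.sum_univ_succAbove _ k, hy, zero_smul, map_zero, zero_add]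
  rw [Finset.sum_eq_single j]
  · rw [map_smul, D.ridge, D.c_self, smul_eq_mul, mul_one]
  · intro i _ hij
    rw [map_smul, D.ridge, D.c_ne _ (fun h => hij (Fin.succAbove_right_injective h).symm), smul_zero]
  · intro h
    exact absurd (mem_univ j) h

open Classical in
/-- the positions of the vertices which are not in `σ` -/
noncomputable def walls (σ : Set ι) (f : I) : Finset (Fin (n + 1)) :=
  univ.filter fun k => D.vtx f k ∉ σ

theorem mem_walls {σ : Set ι} {f : I} {k : Fin (n + 1)} : k ∈ D.walls σ f ↔ D.vtx f k ∉ σ := by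
  classical
  simp [walls]

/-- `f` contains `σ` -/
def Star (σ : Set ι) (f : I) : Prop := ∀ s ∈ σ, ∃ k, D.vtx f k = s

theorem star_nb {σ : Set ι} {f : I} {k : Fin (n + 1)} (hf : D.Star σ f) (hk : k ∈ D.walls σ f) :
    D.Star σ (D.nb (f, k)).1 := by
  intro s hs
  obtain ⟨l, hl⟩ := hf s hs
  have hlk : l ≠ k := by
    rintro rfl
    exact D.mem_walls.1 hk (hl ▸ hs)
  obtain ⟨j, rfl⟩ := Fin.exists_succAbove_eq hlk
  exact ⟨_, by rw [← D.ridge, hl]⟩

theorem wall_nb {σ : Set ι} {f : I} {k : Fin (n + 1)} (hf : D.Star σ f) (hk : k ∈ D.walls σ f) :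
    (D.nb (f, k)).2 ∈ D.walls σ (D.nb (f, k)).1 := by
  rw [mem_walls]
  intro hs
  obtain ⟨l, hl⟩ := hf _ hs
  have hlk : l ≠ k := by
    rintro rfl
    exact D.mem_walls.1 hk (hl ▸ hs)
  obtain ⟨j, rfl⟩ := Fin.exists_succAbove_eq hlk
  rw [D.ridge] at hl
  exact Fin.succAbove_ne _ _ (D.inj _ hl)

theorem wall_succAbove {σ : Set ι} {f : I} {k : Fin (n + 1)} (j : Fin n) :
    k.succAbove j ∈ D.walls σ f ↔
      (D.nb (f, k)).2.succAbove j ∈ D.walls σ (D.nb (f, k)).1 := by
  rw [mem_walls, mem_walls, D.ridge]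

/-- genericity of `z` for the star of `σ` -/
def G1 (σ : Set ι) (z : E) : Prop := ∀ f, D.Star σ f → ∀ k ∈ D.walls σ f, D.c f k z ≠ 0

/-- joint genericity -/
def G3 (σ : Set ι) (z p : E) : Prop := ∀ f, D.Star σ f → ∀ k ∈ D.walls σ f, ∀ l ∈ D.walls σ f,
  k ≠ l → D.c f k z * D.c f l p ≠ D.c f l z * D.c f k p

theorem ev_imp {σ : Set ι} {f : I} {k : Fin (n + 1)} {z p : E}
    (hf : D.Star σ f) (hk : k ∈ D.walls σ f) (hp : D.G1 σ p)
    (h : Ev (D.walls σ f) (fun l => D.c f l z) (fun l => D.c f l p) k) :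
    Ev (D.walls σ (D.nb (f, k)).1) (fun l => D.c (D.nb (f, k)).1 l z)
      (fun l => D.c (D.nb (f, k)).1 l p) (D.nb (f, k)).2 := by
  obtain ⟨h1, h2⟩ := h
  have hm := D.side f k
  set m := D.c f k (D.u (D.vtx (D.nb (f, k)).1 (D.nb (f, k)).2)) with hmdef
  have ez : D.c f k z = D.c (D.nb (f, k)).1 (D.nb (f, k)).2 z * m := D.coord_mul f k z
  have ep : D.c f k p = D.c (D.nb (f, k)).1 (D.nb (f, k)).2 p * m := D.coord_mul f k p
  have hbk : D.c f k p ≠ 0 := hp f hf k hk
  have hm0 : m ≠ 0 := hm.ne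
  have hbk' : D.c (D.nb (f, k)).1 (D.nb (f, k)).2 p ≠ 0 := by
    intro h0
    rw [ep, h0, zero_mul] at hbk
    exact hbk rfl
  have hquot : D.c f k z / D.c f k p = D.c (D.nb (f, k)).1 (D.nb (f, k)).2 z /
      D.c (D.nb (f, k)).1 (D.nb (f, k)).2 p := by
    rw [ez, ep]
    field_simp
  set x : E := z - (D.c f k z / D.c f k p) • p with hx
  have hx0 : D.c f k x = 0 := by
    rw [hx, map_sub, map_smul, smul_eq_mul]
    field_simp
    ring
  refine ⟨?_, ?_⟩
  · have h1' : D.c f k z * D.c f k p < 0 := h1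
    rw [ez, ep] at h1'
    have hm2 : 0 < m * m := mul_pos_of_neg_of_neg hm hm
    by_contra hcon
    push Not at hcon
    nlinarith
  · intro w hw hwk
    obtain ⟨j, rfl⟩ := Fin.exists_succAbove_eq hwk
    have hwj : k.succAbove j ∈ D.walls σ f := (D.wall_succAbove j).2 hw
    have h3 : 0 < D.c f (k.succAbove j) z - D.c f k z / D.c f k p * D.c f (k.succAbove j) p :=
      h2 _ hwj (Fin.succAbove_ne k j)
    have e1 : D.c f (k.succAbove j) x =
        D.c f (k.succAbove j) z - D.c f k z / D.c f k p * D.c f (k.succAbove j) p := by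
      rw [hx, map_sub, map_smul, smul_eq_mul]
    have e2 : D.c (D.nb (f, k)).1 ((D.nb (f, k)).2.succAbove j) x =
        D.c (D.nb (f, k)).1 ((D.nb (f, k)).2.succAbove j) z -
          D.c f k z / D.c f k p * D.c (D.nb (f, k)).1 ((D.nb (f, k)).2.succAbove j) p := by
      rw [hx, map_sub, map_smul, smul_eq_mul]
    show 0 < D.c (D.nb (f, k)).1 ((D.nb (f, k)).2.succAbove j) z -
      D.c (D.nb (f, k)).1 (D.nb (f, k)).2 z / D.c (D.nb (f, k)).1 (D.nb (f, k)).2 p *
        D.c (D.nb (f, k)).1 ((D.nb (f, k)).2.succAbove j) p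
    rw [← hquot, ← e2, ← D.coord_ridge f k x hx0 j, e1]
    exact h3

theorem sg_nb {σ : Set ι} {f : I} {k : Fin (n + 1)} {z p : E}
    (hf : D.Star σ f) (hk : k ∈ D.walls σ f) (hp : D.G1 σ p) :
    sg (D.walls σ f) (fun l => D.c f l z) (fun l => D.c f l p) k +
    sg (D.walls σ (D.nb (f, k)).1) (fun l => D.c (D.nb (f, k)).1 l z)
      (fun l => D.c (D.nb (f, k)).1 l p) (D.nb (f, k)).2 = 0 := by
  classical
  have hiff : Ev (D.walls σ f) (fun l => D.c f l z) (fun l => D.c f l p) k ↔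
      Ev (D.walls σ (D.nb (f, k)).1) (fun l => D.c (D.nb (f, k)).1 l z)
        (fun l => D.c (D.nb (f, k)).1 l p) (D.nb (f, k)).2 := by
    constructor
    · exact D.ev_imp hf hk hp
    · intro h
      have := D.ev_imp (z := z) (D.star_nb hf hk) (D.wall_nb hf hk) hp h
      have e : D.nb ((D.nb (f, k)).1, (D.nb (f, k)).2) = (f, k) := D.nb_nb (f, k)
      rw [e] at this
      exact this
  have hm := D.side f k
  have ep := D.coord_mul f k p
  have hbk : D.c f k p ≠ 0 := hp f hf k hk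
  unfold sg
  by_cases h : Ev (D.walls σ f) (fun l => D.c f l z) (fun l => D.c f l p) k
  · rw [if_pos h, if_pos (hiff.1 h)]
    rcases lt_or_gt_of_ne hbk with h1 | h1
    · rw [if_pos h1, if_neg]
      · norm_num
      · intro h2
        have := mul_pos_of_neg_of_neg h2 hm
        linarith
    · rw [if_neg (not_lt.2 h1.le), if_pos]
      · norm_num
      · by_contra h2
        push Not at h2
        have := mul_nonpos_of_nonneg_of_nonpos h2 hm.le
        linarith
  · rw [if_neg h, if_neg (fun h' => h (hiff.2 h'))]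
    norm_num

open Classical in
/-- number of the cones of the star of `σ` which contain `z` in the interior, modulo `σ` -/
noncomputable def cnt [Fintype I] (σ : Set ι) (z : E) : ℕ :=
  (univ.filter fun f => D.Star σ f ∧ ∀ k ∈ D.walls σ f, 0 < D.c f k z).card

theorem cnt_eq [Fintype I] (σ : Set ι) (z p : E) (hz : D.G1 σ z) (hp : D.G1 σ p)
    (hzp : D.G3 σ z p) : D.cnt σ z = D.cnt σ p := by
  classical
  let S : Finset (I × Fin (n + 1)) :=
    univ.filter fun x => D.Star σ x.1 ∧ x.2 ∈ D.walls σ x.1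
  have hsum : ∑ x ∈ S, sg (D.walls σ x.1) (fun l => D.c x.1 l z) (fun l => D.c x.1 l p) x.2 = 0 := by
    refine Finset.sum_involution (fun x _ => D.nb x) ?_ ?_ ?_ ?_
    · rintro ⟨f, k⟩ hx
      have hx' := (mem_filter.1 hx).2
      exact D.sg_nb hx'.1 hx'.2 hp
    · rintro ⟨f, k⟩ hx hne heq
      have hx' := (mem_filter.1 hx).2
      have := D.sg_nb (z := z) hx'.1 hx'.2 hp
      rw [heq] at this
      simp only at this hne
      omega
    · rintro ⟨f, k⟩ hx
      have hx' := (mem_filter.1 hx).2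
      exact mem_filter.2 ⟨mem_univ _, D.star_nb hx'.1 hx'.2, D.wall_nb hx'.1 hx'.2⟩
    · rintro x _
      exact D.nb_nb x
  rw [Finset.sum_finset_product S (univ.filter fun f => D.Star σ f) (D.walls σ) (by
    rintro ⟨f, k⟩
    simp [S])] at hsum
  have hray : ∀ f ∈ univ.filter (fun f => D.Star σ f),
      ∑ k ∈ D.walls σ f, sg (D.walls σ f) (fun l => D.c f l z) (fun l => D.c f l p) k =
        (if ∀ k ∈ D.walls σ f, 0 < D.c f k z then 1 else 0) -
          (if ∀ k ∈ D.walls σ f, 0 < D.c f k p then 1 else 0) := by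
    intro f hf
    have hf' := (mem_filter.1 hf).2
    have h := ray_count (fun l => D.c f l p) (D.walls σ f) (fun l => D.c f l z)
      (fun k hk => hz f hf' k hk) (fun k hk => hp f hf' k hk)
      (fun k hk l hl hkl => hzp f hf' k hk l hl hkl)
    rw [h]
    congr 1
    · split_ifs <;> rfl
    · split_ifs <;> rfl
  rw [sum_congr rfl hray, sum_sub_distrib] at hsum
  have hc : ∀ y : E, (D.cnt σ y : ℤ) =
      ∑ f ∈ univ.filter (fun f => D.Star σ f), (if ∀ k ∈ D.walls σ f, 0 < D.c f k y then 1 else 0) := by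
    intro y
    rw [cnt, Finset.sum_ite, Finset.sum_const_zero, add_zero, Finset.sum_const, nsmul_eq_mul, mul_one,
      Finset.filter_filter]
  have h2 : (D.cnt σ z : ℤ) = D.cnt σ p := by
    rw [hc, hc]
    linarith
  exact_mod_cast h2

end FanData

end Pool.Agent.Q134.Fan
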