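import Pool.Agent.Q134.Fan.Count

/-!
A matched family of simplicial cones for which some point is contained in exactly one cone is a
complete simplicial fan: the cones cover the space and the coefficients are well defined.
-/

set_option autoImplicit false

namespace Pool.Agent.Q134.Fan

open Finset Topology

namespace FanData

section gen

variable {E : Type*} [NormedAddCommGroup E] [NormedSpace ℝ E] [FiniteDimensional ℝ E]

theorem isOpen_ne (l : E →ₗ[ℝ] ℝ) : IsOpen {z : E | l z ≠ 0} :=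
  isOpen_ne_fun (LinearMap.continuous_of_finiteDimensional l) continuous_const

theorem dense_ne (l : E →ₗ[ℝ] ℝ) (hl : l ≠ 0) : Dense {z : E | l z ≠ 0} := by
  have h : {z : E | l z ≠ 0} = ((LinearMap.ker l : Submodule ℝ E) : Set E)ᶜ := by
    ext z
    simp
  rw [h, ← interior_eq_empty_iff_dense_compl]
  by_contra hne
  apply hl
  have := Submodule.eq_top_of_nonempty_interior' (LinearMap.ker l)
    (Set.nonempty_iff_ne_empty.2 hne)
  exact LinearMap.ker_eq_top.1 this

theorem dense_all {J : Type*} [Finite J] (l : J → E →ₗ[ℝ] ℝ) (hl : ∀ j, l j ≠ 0) :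
    Dense {z : E | ∀ j, l j z ≠ 0} := by
  haveI : CompleteSpace E := FiniteDimensional.complete ℝ E
  have h : {z : E | ∀ j, l j z ≠ 0} = ⋂ j, {z : E | l j z ≠ 0} := by
    ext z
    simp
  rw [h]
  exact dense_iInter_of_isOpen (fun j => isOpen_ne (l j)) (fun j => dense_ne (l j) (hl j))

end gen

variable {E : Type*} [NormedAddCommGroup E] [NormedSpace ℝ E] [FiniteDimensional ℝ E]
  {ι I : Type*} {n : ℕ} [Fintype I]
variable (D : FanData E ι I n)

theorem continuous_c (f : I) (k : Fin (n + 1)) : Continuous fun z => D.c f k z :=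
  LinearMap.continuous_of_finiteDimensional (D.c f k)

theorem c_ne_zero (f : I) (k : Fin (n + 1)) : D.c f k ≠ 0 := by
  intro h
  have := D.c_self f k
  rw [h] at this
  simp at this

theorem dense_G1 : Dense {z : E | D.G1 ∅ z} := by
  refine (dense_all (fun x : I × Fin (n + 1) => D.c x.1 x.2) (fun x => D.c_ne_zero _ _)).mono ?_
  intro z hz f _ k _
  exact hz (f, k)

theorem G1_mono {σ : Set ι} {z : E} (h : ∀ f k, D.c f k z ≠ 0) : D.G1 σ z :=
  fun f _ k _ => h f k

/-- in every nonempty open set there is a point in general position to `z` -/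
theorem exists_generic {σ : Set ι} {z : E} (hz : D.G1 σ z) {U : Set E} (hU : IsOpen U)
    (hne : U.Nonempty) : ∃ p ∈ U, (∀ f k, D.c f k p ≠ 0) ∧ D.G3 σ z p := by
  classical
  let J := {x : I × Fin (n + 1) × Fin (n + 1) //
    D.Star σ x.1 ∧ x.2.1 ∈ D.walls σ x.1 ∧ x.2.2 ∈ D.walls σ x.1 ∧ x.2.1 ≠ x.2.2}
  have hd : Dense {p : E | ∀ j : (I × Fin (n + 1)) ⊕ J,
      (Sum.elim (fun x : I × Fin (n + 1) => D.c x.1 x.2)
        (fun x : J => D.c x.1.1 x.1.2.1 z • D.c x.1.1 x.1.2.2 -
          D.c x.1.1 x.1.2.2 z • D.c x.1.1 x.1.2.1) j) p ≠ 0} := by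
    apply dense_all
    rintro (x | x)
    · exact D.c_ne_zero _ _
    · obtain ⟨⟨f, k, l⟩, hf, hk, hl, hkl⟩ := x
      simp only [Sum.elim_inr] at *
      intro h0
      have h1 := congrArg (fun m : E →ₗ[ℝ] ℝ => m (D.u (D.vtx f l))) h0
      simp only [LinearMap.sub_apply, LinearMap.smul_apply, smul_eq_mul, LinearMap.zero_apply] at h1
      rw [D.c_self, D.c_ne f hkl] at h1
      apply hz f hf k hk
      linarith
  obtain ⟨p, hpU, hp⟩ := hd.exists_mem_open hU hne
  refine ⟨p, hp, fun f k => hpU (Sum.inl (f, k)), ?_⟩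
  intro f hf k hk l hl hkl
  have := hpU (Sum.inr ⟨(f, k, l), hf, hk, hl, hkl⟩)
  simp only [Sum.elim_inr, LinearMap.sub_apply, LinearMap.smul_apply, smul_eq_mul] at this
  intro h
  exact this (by linarith)

theorem cnt_pos {σ : Set ι} {f : I} (hf : D.Star σ f) {z : E} (hz : D.G1 σ z) : 0 < D.cnt σ z := by
  classical
  have hU : IsOpen {p : E | ∀ k : Fin (n + 1), 0 < D.c f k p} := by
    have : {p : E | ∀ k : Fin (n + 1), 0 < D.c f k p} = ⋂ k, {p : E | 0 < D.c f k p} := by
      ext p; simp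
    rw [this]
    exact isOpen_iInter_of_finite fun k => isOpen_lt continuous_const (D.continuous_c f k)
  have hne : {p : E | ∀ k : Fin (n + 1), 0 < D.c f k p}.Nonempty := by
    refine ⟨∑ k, D.u (D.vtx f k), fun k => ?_⟩
    rw [map_sum, Finset.sum_eq_single k]
    · rw [D.c_self]; exact one_pos
    · intro j _ hj
      exact D.c_ne f hj.symm
    · intro h; exact absurd (mem_univ k) h
  obtain ⟨p, hp, hp1, hp3⟩ := D.exists_generic hz hU hne
  rw [D.cnt_eq σ z p hz (D.G1_mono hp1) hp3]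
  unfold cnt
  rw [Finset.card_pos]
  exact ⟨f, mem_filter.2 ⟨mem_univ _, hf, fun k _ => hp k⟩⟩

/-- the relative cones of the star of `σ` cover -/
theorem cover {σ : Set ι} {f : I} (hf : D.Star σ f) (x : E) :
    ∃ h, D.Star σ h ∧ ∀ k ∈ D.walls σ h, 0 ≤ D.c h k x := by
  classical
  have hcl : IsClosed {x : E | ∃ h, D.Star σ h ∧ ∀ k ∈ D.walls σ h, 0 ≤ D.c h k x} := by
    have : {x : E | ∃ h, D.Star σ h ∧ ∀ k ∈ D.walls σ h, 0 ≤ D.c h k x} =
        ⋃ h : I, {x : E | D.Star σ h ∧ ∀ k ∈ D.walls σ h, 0 ≤ D.c h k x} := by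
      ext x; simp
    rw [this]
    refine isClosed_iUnion_of_finite fun h => ?_
    by_cases hh : D.Star σ h
    · have : {x : E | D.Star σ h ∧ ∀ k ∈ D.walls σ h, 0 ≤ D.c h k x} =
          ⋂ k : Fin (n + 1), ⋂ (_ : k ∈ D.walls σ h), {x : E | 0 ≤ D.c h k x} := by
        ext x; simp [hh]
      rw [this]
      exact isClosed_iInter fun k => isClosed_iInter fun _ =>
        isClosed_le continuous_const (D.continuous_c h k)
    · have : {x : E | D.Star σ h ∧ ∀ k ∈ D.walls σ h, 0 ≤ D.c h k x} = ∅ := by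
        ext x; simp [hh]
      rw [this]
      exact isClosed_empty
  have hd : Dense {z : E | ∀ x : I × Fin (n + 1), D.c x.1 x.2 z ≠ 0} :=
    dense_all _ (fun x => D.c_ne_zero _ _)
  have hsub : {z : E | ∀ x : I × Fin (n + 1), D.c x.1 x.2 z ≠ 0} ⊆
      {x : E | ∃ h, D.Star σ h ∧ ∀ k ∈ D.walls σ h, 0 ≤ D.c h k x} := by
    intro z hz
    have h1 : D.G1 σ z := fun f _ k _ => hz (f, k)
    have h2 := D.cnt_pos hf h1
    unfold cnt at h2
    rw [Finset.card_pos] at h2
    obtain ⟨h, hh⟩ := h2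
    have := (mem_filter.1 hh).2
    exact ⟨h, this.1, fun k hk => (this.2 k hk).le⟩
  have := hd.closure_eq
  have h3 : closure {z : E | ∀ x : I × Fin (n + 1), D.c x.1 x.2 z ≠ 0} ⊆ _ :=
    closure_minimal hsub hcl
  rw [this] at h3
  exact h3 (Set.mem_univ x)

/-- some point lies in the interior of the cone of exactly one facet and can be separated from the
other ones -/
def Sep : Prop := ∃ (f₀ : I) (p : E), (∀ k, 0 < D.c f₀ k p) ∧
  ∀ f, f ≠ f₀ → ∃ l : E →ₗ[ℝ] ℝ, 0 < l p ∧ ∀ k, l (D.u (D.vtx f k)) ≤ 0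

variable {D}

theorem cnt_one (hS : D.Sep) {z : E} (hz : D.G1 ∅ z) : D.cnt ∅ z = 1 := by
  classical
  obtain ⟨f₀, p₀, hp₀, hsep⟩ := hS
  choose! l hl0 hl using hsep
  let U : Set E := {p | (∀ k : Fin (n + 1), 0 < D.c f₀ k p) ∧ ∀ f, f ≠ f₀ → 0 < l f p}
  have hU : IsOpen U := by
    have : U = (⋂ k, {p : E | 0 < D.c f₀ k p}) ∩ ⋂ f : I, {p : E | f ≠ f₀ → 0 < l f p} := by
      ext p; simp [U]
    rw [this]
    refine (isOpen_iInter_of_finite fun k => isOpen_lt continuous_const (D.continuous_c f₀ k)).inter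
      (isOpen_iInter_of_finite fun f => ?_)
    by_cases h : f = f₀
    · simp [h]
    · simp only [ne_eq, h, not_false_eq_true, forall_const]
      exact isOpen_lt continuous_const (LinearMap.continuous_of_finiteDimensional (l f))
  obtain ⟨p, hp, hp1, hp3⟩ := D.exists_generic hz hU ⟨p₀, hp₀, fun f hf => hl0 f hf⟩
  rw [D.cnt_eq ∅ z p hz (D.G1_mono hp1) hp3]
  unfold cnt
  rw [Finset.card_eq_one]
  refine ⟨f₀, ?_⟩
  ext f
  simp only [mem_filter, mem_univ, true_and, mem_singleton]
  constructor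
  · rintro ⟨-, h⟩
    by_contra hf
    have h1 : 0 < l f p := hp.2 f hf
    rw [← D.span f p, map_sum] at h1
    have h2 : ∑ k, l f (D.c f k p • D.u (D.vtx f k)) ≤ 0 := by
      apply Finset.sum_nonpos
      intro k _
      rw [map_smul, smul_eq_mul]
      exact mul_nonpos_of_nonneg_of_nonpos (h k (D.mem_walls.2 (by simp))).le (hl f hf k)
    linarith
  · rintro rfl
    exact ⟨fun s hs => absurd hs (by simp), fun k _ => hp.1 k⟩

variable (D) in
open Classical in
/-- coefficients of `y` in the cone `f` -/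
noncomputable def coef (f : I) (y : E) (i : ι) : ℝ :=
  ∑ k, if D.vtx f k = i then D.c f k y else 0

theorem unique (hS : D.Sep) {f g : I} {y : E} (hf : ∀ k, 0 ≤ D.c f k y) (hg : ∀ k, 0 ≤ D.c g k y) :
    D.coef f y = D.coef g y := by
  classical
  set σ : Set ι := {i | ∃ k, D.vtx f k = i ∧ 0 < D.c f k y} with hσ
  have hfσ : D.Star σ f := by
    rintro s ⟨k, hk, -⟩
    exact ⟨k, hk⟩
  -- expansion of y
  have hexp : ∀ (h : I) (k : Fin (n + 1)), D.c h k y =
      ∑ j, D.c f j y * D.c h k (D.u (D.vtx f j)) := by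
    intro h k
    conv_lhs => rw [← D.span f y]
    rw [map_sum]
    exact Finset.sum_congr rfl fun j _ => by rw [map_smul, smul_eq_mul]
  have hδ : ∀ h, D.Star σ h → ∀ (k j : Fin (n + 1)), D.c f j y * D.c h k (D.u (D.vtx f j)) =
      if D.vtx f j = D.vtx h k then D.c f j y else 0 := by
    intro h hh k j
    rcases (hf j).eq_or_lt with h0 | h0
    · rw [← h0]; simp
    · obtain ⟨l, hl⟩ := hh (D.vtx f j) ⟨j, rfl, h0⟩
      rw [← hl, D.dual]
      by_cases hkl : k = l
      · simp [hkl]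
      · rw [if_neg hkl, if_neg (fun h' => hkl (D.inj h h').symm), mul_zero]
  have hval : ∀ h, D.Star σ h → ∀ k, D.c h k y =
      ∑ j, if D.vtx f j = D.vtx h k then D.c f j y else 0 := by
    intro h hh k
    rw [hexp h k]
    exact Finset.sum_congr rfl fun j _ => hδ h hh k j
  have hnonneg : ∀ h, D.Star σ h → ∀ k, 0 ≤ D.c h k y := by
    intro h hh k
    rw [hval h hh k]
    apply Finset.sum_nonneg
    intro j _
    split_ifs
    · exact hf j
    · exact le_rfl
  have hpos : ∀ h, D.Star σ h → ∀ k, k ∉ D.walls σ h → 0 < D.c h k y := by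
    intro h hh k hk
    rw [D.mem_walls, not_not] at hk
    obtain ⟨j, hj, hj0⟩ := hk
    rw [hval h hh k]
    refine lt_of_lt_of_le hj0 ?_
    have := Finset.single_le_sum (f := fun j => if D.vtx f j = D.vtx h k then D.c f j y else 0)
      (fun i _ => by
        show 0 ≤ if D.vtx f i = D.vtx h k then D.c f i y else 0
        split_ifs
        · exact hf i
        · exact le_rfl) (mem_univ j)
    simp only [hj, if_true] at this
    exact this
  -- a generic interior point of the cone g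
  have hU : IsOpen {p : E | ∀ k : Fin (n + 1), 0 < D.c g k p} := by
    have : {p : E | ∀ k : Fin (n + 1), 0 < D.c g k p} = ⋂ k, {p : E | 0 < D.c g k p} := by
      ext p; simp
    rw [this]
    exact isOpen_iInter_of_finite fun k => isOpen_lt continuous_const (D.continuous_c g k)
  have hne : {p : E | ∀ k : Fin (n + 1), 0 < D.c g k p}.Nonempty := by
    refine ⟨∑ k, D.u (D.vtx g k), fun k => ?_⟩
    rw [map_sum, Finset.sum_eq_single k]
    · rw [D.c_self]; exact one_pos
    · intro j _ hj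
      exact D.c_ne g hj.symm
    · intro h; exact absurd (mem_univ k) h
  have hd : Dense {z : E | ∀ x : I × Fin (n + 1), D.c x.1 x.2 z ≠ 0} :=
    dense_all _ (fun x => D.c_ne_zero _ _)
  obtain ⟨x, hx1, hx2⟩ := hd.exists_mem_open hU hne
  have h1 : D.G1 σ x := fun f _ k _ => hx1 (f, k)
  have h2 := D.cnt_pos hfσ h1
  unfold cnt at h2
  rw [Finset.card_pos] at h2
  obtain ⟨h, hh⟩ := h2
  obtain ⟨hhσ, hhx⟩ := (mem_filter.1 hh).2
  -- small perturbation
  have key : ∀ a b : ℝ, (0 < a ∨ (0 ≤ a ∧ 0 < b)) → ∀ᶠ ε in 𝓝[>] (0 : ℝ), 0 < a + ε * b := by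
    rintro a b (ha | ⟨ha, hb⟩)
    · have : Filter.Tendsto (fun ε : ℝ => a + ε * b) (𝓝[>] 0) (𝓝 (a + 0 * b)) :=
        ((continuous_const.add (continuous_id.mul continuous_const)).tendsto 0).mono_left
          nhdsWithin_le_nhds
      rw [zero_mul, add_zero] at this
      exact this.eventually_const_lt ha
    · filter_upwards [self_mem_nhdsWithin] with ε hε
      have : 0 < ε * b := mul_pos hε hb
      linarith
  have key2 : ∀ a b : ℝ, b ≠ 0 → ∀ᶠ ε in 𝓝[>] (0 : ℝ), a + ε * b ≠ 0 := by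
    intro a b hb
    by_cases ha : a = 0
    · filter_upwards [self_mem_nhdsWithin] with ε hε
      rw [ha, zero_add]
      exact mul_ne_zero (ne_of_gt hε) hb
    · have : Filter.Tendsto (fun ε : ℝ => a + ε * b) (𝓝[>] 0) (𝓝 (a + 0 * b)) :=
        ((continuous_const.add (continuous_id.mul continuous_const)).tendsto 0).mono_left
          nhdsWithin_le_nhds
      rw [zero_mul, add_zero] at this
      exact this.eventually_ne ha
  have e1 : ∀ᶠ ε in 𝓝[>] (0 : ℝ), ∀ k, 0 < D.c h k y + ε * D.c h k x := by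
    rw [Filter.eventually_all]
    intro k
    apply key
    by_cases hk : k ∈ D.walls σ h
    · exact Or.inr ⟨hnonneg h hhσ k, hhx k hk⟩
    · exact Or.inl (hpos h hhσ k hk)
  have e2 : ∀ᶠ ε in 𝓝[>] (0 : ℝ), ∀ k, 0 < D.c g k y + ε * D.c g k x := by
    rw [Filter.eventually_all]
    intro k
    exact key _ _ (Or.inr ⟨hg k, hx2 k⟩)
  have e3 : ∀ᶠ ε in 𝓝[>] (0 : ℝ), ∀ x' : I × Fin (n + 1),
      D.c x'.1 x'.2 y + ε * D.c x'.1 x'.2 x ≠ 0 := by
    rw [Filter.eventually_all]
    intro x'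
    exact key2 _ _ (hx1 x')
  obtain ⟨ε, h3, h4, h5⟩ := (e1.and (e2.and e3)).exists
  have hz : D.G1 ∅ (y + ε • x) := by
    intro f' _ k' _
    rw [map_add, map_smul, smul_eq_mul]
    exact h5 (f', k')
  have hone := cnt_one hS hz
  unfold cnt at hone
  rw [Finset.card_eq_one] at hone
  obtain ⟨f₁, hf₁⟩ := hone
  have hmem : ∀ f' : I, (∀ k, 0 < D.c f' k y + ε * D.c f' k x) → f' = f₁ := by
    intro f' hf'
    have : f' ∈ ({f₁} : Finset I) := by
      rw [← hf₁, mem_filter]
      refine ⟨mem_univ _, fun s hs => absurd hs (by simp), fun k _ => ?_⟩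
      rw [map_add, map_smul, smul_eq_mul]
      exact hf' k
    exact mem_singleton.1 this
  have hgh : g = h := (hmem g h4).trans (hmem h h3).symm
  have hgσ : D.Star σ g := hgh ▸ hhσ
  ext i
  unfold coef
  have h6 : ∀ l, (if D.vtx g l = i then D.c g l y else 0) =
      ∑ j, if D.vtx f j = D.vtx g l ∧ D.vtx g l = i then D.c f j y else 0 := by
    intro l
    by_cases hl : D.vtx g l = i
    · rw [if_pos hl, hval g hgσ l]
      exact Finset.sum_congr rfl fun j _ => by simp [hl]
    · rw [if_neg hl]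
      simp [hl]
  rw [Finset.sum_congr rfl fun l _ => h6 l, Finset.sum_comm]
  refine Finset.sum_congr rfl fun j _ => ?_
  by_cases hj : D.vtx f j = i
  · rw [if_pos hj]
    rcases (hf j).eq_or_lt with h0 | h0
    · rw [← h0]; simp
    · obtain ⟨l, hl⟩ := hgσ (D.vtx f j) ⟨j, rfl, h0⟩
      rw [Finset.sum_eq_single l]
      · rw [if_pos ⟨hl.symm, hl.trans hj⟩]
      · intro l' _ hl'
        rw [if_neg]
        rintro ⟨h7, -⟩
        exact hl' (D.inj g (hl.trans h7)).symm
      · intro h; exact absurd (mem_univ l) h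
  · rw [if_neg hj]
    symm
    apply Finset.sum_eq_zero
    intro l _
    rw [if_neg]
    rintro ⟨h7, h8⟩
    exact hj (h7.trans h8)

theorem cover_all (hS : D.Sep) (y : E) : ∃ f, ∀ k, 0 ≤ D.c f k y := by
  obtain ⟨f₀, -⟩ := hS
  obtain ⟨h, -, hh⟩ := D.cover (σ := ∅) (f := f₀) (fun s hs => absurd hs (by simp)) y
  exact ⟨h, fun k => hh k (D.mem_walls.2 (by simp))⟩

/-- the coefficient function of the fan -/
theorem exists_coord (hS : D.Sep) : ∃ C : E → ι → ℝ, (∀ i, Continuous fun y => C y i) ∧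
    ∀ f y, (∀ k, 0 ≤ D.c f k y) → C y = D.coef f y := by
  classical
  choose F hF using cover_all hS
  refine ⟨fun y => D.coef (F y) y, fun i => ?_, fun f y hf => unique hS (hF y) hf⟩
  have hcov : ⋃ f : I, {y : E | ∀ k, 0 ≤ D.c f k y} = Set.univ := by
    ext y
    simpa using ⟨F y, hF y⟩
  have hfin : LocallyFinite fun f : I => {y : E | ∀ k, 0 ≤ D.c f k y} := locallyFinite_of_finite _
  refine hfin.continuous hcov (fun f => ?_) (fun f => ?_)
  · have : {y : E | ∀ k, 0 ≤ D.c f k y} = ⋂ k, {y : E | 0 ≤ D.c f k y} := by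
      ext p; simp
    rw [this]
    exact isClosed_iInter fun k => isClosed_le continuous_const (D.continuous_c f k)
  · have hc : Continuous fun y => D.coef f y i := by
      unfold coef
      refine continuous_finsetSum _ fun k _ => ?_
      split_ifs
      · exact D.continuous_c f k
      · exact continuous_const
    refine hc.continuousOn.congr ?_
    intro y hy
    show D.coef (F y) y i = D.coef f y i
    rw [unique hS (hF y) hy]

end FanData

end Pool.Agent.Q134.Fan
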