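import Pool.Agent.Q134.Fan.Cover

/-!
A complete simplicial fan in `ℝ^(n+1)` which is invariant under `x ↦ -x` and in which no vertex is
joined to two opposite vertices gives a triangulation of the real projective space of dimension `n`.
-/

set_option autoImplicit false

namespace Pool.Agent.Q134.Fan

open Finset Topology

/-- antipodal points of the unit sphere are identified -/
def rel (d : ℕ) (x y : Metric.sphere (0 : EuclideanSpace ℝ (Fin d)) 1) : Prop :=
  (x : EuclideanSpace ℝ (Fin d)) = (y : EuclideanSpace ℝ (Fin d)) ∨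
    (x : EuclideanSpace ℝ (Fin d)) = -(y : EuclideanSpace ℝ (Fin d))

/-- the standard basis vector -/
noncomputable def bs {N : ℕ} (i : Fin N) : EuclideanSpace ℝ (Fin N) := EuclideanSpace.single i 1

theorem bs_apply {N : ℕ} (i j : Fin N) : bs i j = if j = i then 1 else 0 := by
  simp [bs]

theorem bs_inj {N : ℕ} : Function.Injective (bs : Fin N → EuclideanSpace ℝ (Fin N)) := by
  intro i j h
  have := congrArg (fun x : EuclideanSpace ℝ (Fin N) => x i) h
  simp only [bs_apply, if_true] at this
  by_contra hne
  rw [if_neg hne] at this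
  exact one_ne_zero this

theorem eq_sum_bs {N : ℕ} (x : EuclideanSpace ℝ (Fin N)) : x = ∑ i, x i • bs i := by
  ext j
  rw [WithLp.ofLp_sum, Finset.sum_apply]
  simp [bs_apply]

theorem mem_hull {N : ℕ} (τ : Finset (Fin N)) (x : EuclideanSpace ℝ (Fin N)) :
    x ∈ convexHull ℝ (bs '' (τ : Set (Fin N))) ↔
      (∀ i, 0 ≤ x i) ∧ ∑ i, x i = 1 ∧ ∀ i, x i ≠ 0 → i ∈ τ := by
  constructor
  · intro hx
    have hconv : Convex ℝ {x : EuclideanSpace ℝ (Fin N) |
        (∀ i, 0 ≤ x i) ∧ ∑ i, x i = 1 ∧ ∀ i, x i ≠ 0 → i ∈ τ} := by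
      rintro x ⟨hx1, hx2, hx3⟩ y ⟨hy1, hy2, hy3⟩ a b ha hb hab
      refine ⟨fun i => ?_, ?_, fun i hi => ?_⟩
      · simp only [PiLp.add_apply, PiLp.smul_apply, smul_eq_mul]
        have := hx1 i
        have := hy1 i
        positivity
      · simp only [PiLp.add_apply, PiLp.smul_apply, smul_eq_mul]
        rw [Finset.sum_add_distrib, ← Finset.mul_sum, ← Finset.mul_sum, hx2, hy2]
        linarith
      · simp only [PiLp.add_apply, PiLp.smul_apply, smul_eq_mul] at hi
        by_contra hcon
        apply hi
        have h1 : x i = 0 := by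
          by_contra h; exact hcon (hx3 i h)
        have h2 : y i = 0 := by
          by_contra h; exact hcon (hy3 i h)
        rw [h1, h2]; ring
    refine convexHull_min ?_ hconv hx
    rintro _ ⟨i, hi, rfl⟩
    refine ⟨fun j => ?_, ?_, fun j hj => ?_⟩
    · rw [bs_apply]; split_ifs <;> norm_num
    · simp [bs_apply]
    · rw [bs_apply] at hj
      by_cases h : j = i
      · rw [h]; exact hi
      · rw [if_neg h] at hj; exact absurd rfl hj
  · rintro ⟨h1, h2, h3⟩
    rw [eq_sum_bs x]
    have e1 : ∑ i, x i • bs i = ∑ i ∈ τ, x i • (bs i : EuclideanSpace ℝ (Fin N)) := by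
      symm
      apply Finset.sum_subset (Finset.subset_univ _)
      intro i _ hi
      have : x i = 0 := by
        by_contra h; exact hi (h3 i h)
      rw [this, zero_smul]
    have e2 : ∑ i ∈ τ, x i = 1 := by
      rw [← h2]
      apply Finset.sum_subset (Finset.subset_univ _)
      intro i _ hi
      by_contra h; exact hi (h3 i h)
    rw [e1]
    refine (convex_convexHull ℝ _).sum_mem (fun i _ => h1 i) e2 (fun i hi => ?_)
    exact subset_convexHull ℝ _ ⟨i, hi, rfl⟩

section

variable {N n : ℕ} {I : Type*} [Fintype I]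
variable (D : FanData (EuclideanSpace ℝ (Fin (n + 1))) (Fin N × Bool) I n)

/-- the faces of the quotient complex -/
def IsFace (τ : Finset (Fin N)) : Prop := ∃ f, ∀ i ∈ τ, ∃ k, (D.vtx f k).1 = i

/-- the quotient complex, with the standard basis vectors as vertices -/
noncomputable def cplx : Geometry.SimplicialComplex ℝ (EuclideanSpace ℝ (Fin N)) := by
  classical
  exact Geometry.SimplicialComplex.ofAffineIndependent
    { faces := {s | s.Nonempty ∧ ∃ τ : Finset (Fin N), IsFace D τ ∧ s = τ.image bs}
      isRelLowerSet_faces := by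
        rintro s ⟨hs, τ, ⟨f, hf⟩, rfl⟩
        refine ⟨hs, fun t hts ht => ⟨ht, τ.filter (fun i => bs i ∈ t), ⟨f, fun i hi => ?_⟩, ?_⟩⟩
        · exact hf i (mem_filter.1 hi).1
        · ext x
          rw [mem_image]
          constructor
          · intro hx
            obtain ⟨i, hi, rfl⟩ := mem_image.1 (hts hx)
            exact ⟨i, mem_filter.2 ⟨hi, hx⟩, rfl⟩
          · rintro ⟨i, hi, rfl⟩
            exact (mem_filter.1 hi).2 }
    (by
      have h1 : LinearIndependent ℝ (bs : Fin N → EuclideanSpace ℝ (Fin N)) := by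
        rw [Fintype.linearIndependent_iff]
        intro g hg i
        have := congrArg (fun x : EuclideanSpace ℝ (Fin N) => x i) hg
        simp only [WithLp.ofLp_sum, Finset.sum_apply, PiLp.smul_apply, bs_apply, smul_eq_mul,
          mul_ite, mul_one, mul_zero, Finset.sum_ite_eq, mem_univ, if_true] at this
        simpa using this
      refine h1.affineIndependent.range.mono ?_
      intro x hx
      simp only [Set.mem_iUnion] at hx
      obtain ⟨s, ⟨_, τ, _, rfl⟩, hx⟩ := hx
      obtain ⟨i, _, rfl⟩ := mem_image.1 (Finset.mem_coe.1 hx)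
      exact ⟨i, rfl⟩)

theorem mem_faces {s : Finset (EuclideanSpace ℝ (Fin N))} : s ∈ (cplx D).faces ↔
    s.Nonempty ∧ ∃ τ : Finset (Fin N), IsFace D τ ∧ (s : Set _) = bs '' (τ : Set (Fin N)) := by
  classical
  show (s.Nonempty ∧ ∃ τ : Finset (Fin N), IsFace D τ ∧ s = τ.image bs) ↔ _
  refine and_congr_right fun _ => exists_congr fun τ => and_congr_right fun _ => ?_
  rw [← Finset.coe_inj, Finset.coe_image]

theorem mem_space {x : EuclideanSpace ℝ (Fin N)} : x ∈ (cplx D).space ↔
    (∀ i, 0 ≤ x i) ∧ ∑ i, x i = 1 ∧ ∃ f, ∀ i, x i ≠ 0 → ∃ k, (D.vtx f k).1 = i := by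
  classical
  rw [Geometry.SimplicialComplex.mem_space_iff]
  constructor
  · rintro ⟨s, hs, hx⟩
    obtain ⟨_, τ, ⟨f, hf⟩, hs'⟩ := (mem_faces D).1 hs
    rw [hs', mem_hull] at hx
    exact ⟨hx.1, hx.2.1, f, fun i hi => hf i (hx.2.2 i hi)⟩
  · rintro ⟨h1, h2, f, hf⟩
    let τ : Finset (Fin N) := univ.filter fun i => x i ≠ 0
    have hτ : τ.Nonempty := by
      by_contra hcon
      rw [Finset.not_nonempty_iff_eq_empty] at hcon
      have : ∑ i, x i = 0 := by
        apply Finset.sum_eq_zero
        intro i _
        by_contra hi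
        have : i ∈ τ := mem_filter.2 ⟨mem_univ _, hi⟩
        rw [hcon] at this
        simp at this
      rw [this] at h2
      exact zero_ne_one h2
    refine ⟨τ.image bs, (mem_faces D).2 ⟨hτ.image _, τ, ⟨f, fun i hi => hf i (mem_filter.1 hi).2⟩,
      by rw [Finset.coe_image]⟩, ?_⟩
    rw [Finset.coe_image, mem_hull]
    exact ⟨h1, h2, fun i hi => mem_filter.2 ⟨mem_univ _, hi⟩⟩

theorem vertices_eq : (cplx D).vertices = bs '' {i | ∃ f k, (D.vtx f k).1 = i} := by
  classical
  ext x
  rw [Geometry.SimplicialComplex.mem_vertices, mem_faces]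
  constructor
  · rintro ⟨_, τ, ⟨f, hf⟩, hs⟩
    rw [Finset.coe_singleton] at hs
    have : x ∈ bs '' (τ : Set (Fin N)) := by
      rw [← hs]; rfl
    obtain ⟨i, hi, rfl⟩ := this
    exact ⟨i, ⟨f, hf i hi⟩, rfl⟩
  · rintro ⟨i, ⟨f, hf⟩, rfl⟩
    refine ⟨by simp, {i}, ⟨f, fun j hj => ?_⟩, by simp⟩
    rw [Finset.mem_singleton] at hj
    rw [hj]
    exact hf

/-- the symmetry assumptions -/
structure Antip : Prop where
  u_neg : ∀ i s, D.u (i, !s) = -D.u (i, s)
  anti : ∀ f, ∃ g, ∀ k, D.vtx g k = ((D.vtx f k.rev).1, !(D.vtx f k.rev).2)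
  nobad : ∀ f g k l k' l', (D.vtx f k).1 ≠ (D.vtx f l).1 → D.vtx g k' = D.vtx f k →
    D.vtx g l' ≠ ((D.vtx f l).1, !(D.vtx f l).2)

variable {D}

theorem sum_coef (f : I) (y : EuclideanSpace ℝ (Fin (n + 1))) :
    ∑ v, D.coef f y v • D.u v = y := by
  classical
  conv_rhs => rw [← D.span f y]
  have : ∀ v : Fin N × Bool, D.coef f y v • D.u v =
      ∑ k, if D.vtx f k = v then D.c f k y • D.u (D.vtx f k) else 0 := by
    intro v
    unfold FanData.coef
    rw [Finset.sum_smul]
    refine Finset.sum_congr rfl fun k _ => ?_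
    split_ifs with h
    · rw [h]
    · rw [zero_smul]
  rw [Finset.sum_congr rfl fun v _ => this v, Finset.sum_comm]
  refine Finset.sum_congr rfl fun k _ => ?_
  simp

theorem coef_vtx (f : I) (y : EuclideanSpace ℝ (Fin (n + 1))) (k : Fin (n + 1)) :
    D.coef f y (D.vtx f k) = D.c f k y := by
  classical
  unfold FanData.coef
  rw [Finset.sum_eq_single k]
  · simp
  · intro j _ hj
    rw [if_neg (fun h => hj (D.inj f h))]
  · intro h; exact absurd (mem_univ k) h

theorem coef_ne_zero {f : I} {y : EuclideanSpace ℝ (Fin (n + 1))} {v : Fin N × Bool}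
    (h : D.coef f y v ≠ 0) : ∃ k, D.vtx f k = v := by
  classical
  by_contra hcon
  push Not at hcon
  apply h
  unfold FanData.coef
  apply Finset.sum_eq_zero
  intro k _
  rw [if_neg (hcon k)]

theorem coef_nonneg {f : I} {y : EuclideanSpace ℝ (Fin (n + 1))} (hf : ∀ k, 0 ≤ D.c f k y)
    (v : Fin N × Bool) : 0 ≤ D.coef f y v := by
  classical
  unfold FanData.coef
  apply Finset.sum_nonneg
  intro k _
  split_ifs
  · exact hf k
  · exact le_rfl

theorem c_of_sum (f : I) (a : Fin (n + 1) → ℝ) (k : Fin (n + 1)) :
    D.c f k (∑ l, a l • D.u (D.vtx f l)) = a k := by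
  rw [map_sum, Finset.sum_eq_single k]
  · rw [map_smul, D.c_self, smul_eq_mul, mul_one]
  · intro l _ hl
    rw [map_smul, D.c_ne f hl.symm, smul_zero]
  · intro h; exact absurd (mem_univ k) h

theorem main (hS : D.Sep) (hA : Antip D) :
    Nonempty ((cplx D).space ≃ₜ Quot (rel (n + 1))) := by
  classical
  obtain ⟨C, hCc, hC⟩ := FanData.exists_coord hS
  have hcov := FanData.cover_all hS
  have hCnn : ∀ y v, 0 ≤ C y v := by
    intro y v
    obtain ⟨f, hf⟩ := hcov y
    rw [hC f y hf]
    exact coef_nonneg hf v
  have hCsum : ∀ y, ∑ v, C y v • D.u v = y := by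
    intro y
    obtain ⟨f, hf⟩ := hcov y
    rw [hC f y hf]
    exact sum_coef f y
  -- two opposite vertices never occur in one facet
  have hopp : ∀ f k l, D.vtx f l ≠ ((D.vtx f k).1, !(D.vtx f k).2) := by
    intro f k l h
    have h1 : D.u (D.vtx f l) = -D.u (D.vtx f k) := by
      rw [h, hA.u_neg]
    have h2 : D.c f l (D.u (D.vtx f l)) = -D.c f l (D.u (D.vtx f k)) := by rw [h1, map_neg]
    rw [D.dual, D.dual, if_pos rfl] at h2
    split_ifs at h2 <;> norm_num at h2
  -- antipodes
  have hCneg : ∀ y i s, C (-y) (i, s) = C y (i, !s) := by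
    intro y i s
    obtain ⟨f, hf⟩ := hcov y
    obtain ⟨g, hg⟩ := hA.anti f
    have hgc : ∀ k, D.c g k (-y) = D.c f k.rev y := by
      intro k
      have e1 : -y = ∑ l, D.c f l.rev y • D.u (D.vtx g l) := by
        conv_lhs => rw [← D.span f y]
        rw [← Finset.sum_neg_distrib]
        refine Fintype.sum_equiv Fin.revPerm _ _ fun l => ?_
        simp only [Fin.revPerm_apply, Fin.rev_rev]
        rw [hg, Fin.rev_rev, hA.u_neg, smul_neg]
      rw [e1, c_of_sum]
    have hgn : ∀ k, 0 ≤ D.c g k (-y) := fun k => by rw [hgc]; exact hf _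
    rw [hC g (-y) hgn, hC f y hf]
    unfold FanData.coef
    refine Fintype.sum_equiv Fin.revPerm _ _ fun l => ?_
    simp only [Fin.revPerm_apply]
    rw [hgc, hg]
    have hiff : (((D.vtx f l.rev).1, !(D.vtx f l.rev).2) = (i, s)) ↔ (D.vtx f l.rev = (i, !s)) := by
      rw [Prod.ext_iff, Prod.ext_iff]
      constructor
      · rintro ⟨h1, h2⟩
        refine ⟨h1, ?_⟩
        simp only at h2 ⊢
        rw [← h2, Bool.not_not]
      · rintro ⟨h1, h2⟩
        refine ⟨h1, ?_⟩
        simp only at h2 ⊢
        rw [h2, Bool.not_not]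
    simp only [hiff]
  -- the function A
  let A : EuclideanSpace ℝ (Fin (n + 1)) → Fin N → ℝ := fun y i => C y (i, true) + C y (i, false)
  have hAnn : ∀ y i, 0 ≤ A y i := fun y i => add_nonneg (hCnn _ _) (hCnn _ _)
  have hAc : ∀ i, Continuous fun y => A y i := fun i => (hCc _).add (hCc _)
  have hAneg : ∀ y i, A (-y) i = A y i := by
    intro y i
    simp only [A, hCneg, Bool.not_true, Bool.not_false]
    ring
  have hA0 : ∀ y, y ≠ 0 → 0 < ∑ i, A y i := by
    intro y hy
    by_contra hcon
    have h0 : ∑ i, A y i = 0 := le_antisymm (not_lt.1 hcon) (Finset.sum_nonneg fun i _ => hAnn y i)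
    rw [Finset.sum_eq_zero_iff_of_nonneg (fun i _ => hAnn y i)] at h0
    apply hy
    rw [← hCsum y]
    apply Finset.sum_eq_zero
    rintro ⟨i, s⟩ _
    have h1 := h0 i (mem_univ i)
    have h2 := hCnn y (i, true)
    have h3 := hCnn y (i, false)
    have : C y (i, s) = 0 := by
      simp only [A] at h1
      cases s
      · linarith
      · linarith
    rw [this, zero_smul]
  have hA1 : ∀ y i s, C y (i, s) ≠ 0 → A y i = C y (i, s) := by
    intro y i s h
    obtain ⟨f, hf⟩ := hcov y
    have hother : C y (i, !s) = 0 := by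
      by_contra h'
      rw [hC f y hf] at h h'
      obtain ⟨k, hk⟩ := coef_ne_zero h
      obtain ⟨l, hl⟩ := coef_ne_zero h'
      apply hopp f k l
      rw [hk, hl]
    cases s
    · simp only [A]
      rw [Bool.not_false] at hother
      rw [hother, zero_add]
    · simp only [A]
      rw [Bool.not_true] at hother
      rw [hother, add_zero]
  have hAface : ∀ y f, (∀ k, 0 ≤ D.c f k y) → ∀ i, A y i ≠ 0 →
      ∃ k, (D.vtx f k).1 = i ∧ A y i = C y (D.vtx f k) ∧ C y (D.vtx f k) ≠ 0 := by
    intro y f hf i hi
    have : ∃ s, C y (i, s) ≠ 0 := by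
      by_contra hcon
      push Not at hcon
      apply hi
      simp only [A]
      rw [hcon, hcon, add_zero]
    obtain ⟨s, hs⟩ := this
    have hs' := hs
    rw [hC f y hf] at hs'
    obtain ⟨k, hk⟩ := coef_ne_zero hs'
    exact ⟨k, by rw [hk], by rw [hk]; exact hA1 y i s hs, by rw [hk]; exact hs⟩
  -- the map
  let Φ : Metric.sphere (0 : EuclideanSpace ℝ (Fin (n + 1))) 1 → (cplx D).space := fun y =>
    ⟨WithLp.toLp 2 (fun i => A y i / ∑ j, A y j), by
      have hy0 : (y : EuclideanSpace ℝ (Fin (n + 1))) ≠ 0 := ne_zero_of_mem_unit_sphere y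
      have hpos := hA0 y hy0
      rw [mem_space]
      refine ⟨fun i => div_nonneg (hAnn _ _) hpos.le, ?_, ?_⟩
      · show ∑ i, A y i / ∑ j, A y j = 1
        rw [← Finset.sum_div]
        exact div_self hpos.ne'
      · obtain ⟨f, hf⟩ := hcov y
        refine ⟨f, fun i hi => ?_⟩
        have hi' : A y i ≠ 0 := by
          intro h0
          apply hi
          show A y i / ∑ j, A y j = 0
          rw [h0, zero_div]
        obtain ⟨k, hk, -⟩ := hAface y f hf i hi'
        exact ⟨k, hk⟩⟩
  have hΦc : Continuous Φ := by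
    refine Continuous.subtype_mk ?_ _
    refine (PiLp.continuous_toLp 2 _).comp (continuous_pi fun i => ?_)
    refine ((hAc i).comp continuous_subtype_val).div
      ((continuous_finsetSum _ fun j _ => hAc j).comp continuous_subtype_val) ?_
    intro y
    exact (hA0 y (ne_zero_of_mem_unit_sphere y)).ne'
  have hΦrel : ∀ x y, rel (n + 1) x y → Φ x = Φ y := by
    rintro x y (h | h)
    · rw [Subtype.ext h]
    · apply Subtype.ext
      show WithLp.toLp 2 (fun i => A x i / ∑ j, A x j) = WithLp.toLp 2 (fun i => A y i / ∑ j, A y j)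
      rw [h]
      simp only [hAneg]
  let Ψ : Quot (rel (n + 1)) → (cplx D).space := Quot.lift Φ hΦrel
  have hΨc : Continuous Ψ := continuous_quot_lift _ hΦc
  have hinj : Function.Injective Ψ := by
    intro a b hab
    induction a using Quot.ind with | _ x =>
    induction b using Quot.ind with | _ y =>
    have hxy : Φ x = Φ y := hab
    apply Quot.sound
    have hx0 : (x : EuclideanSpace ℝ (Fin (n + 1))) ≠ 0 := ne_zero_of_mem_unit_sphere x
    have hy0 : (y : EuclideanSpace ℝ (Fin (n + 1))) ≠ 0 := ne_zero_of_mem_unit_sphere y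
    have hpx := hA0 x hx0
    have hpy := hA0 y hy0
    set sx := ∑ j, A x j with hsx
    set sy := ∑ j, A y j with hsy
    have hco : ∀ i, A x i / sx = A y i / sy := by
      intro i
      have h1 := congrArg (fun z : (cplx D).space => (z : EuclideanSpace ℝ (Fin N)) i) hxy
      exact h1
    have hco' : ∀ i, A x i = sx / sy * A y i := by
      intro i
      have := hco i
      field_simp at this ⊢
      linarith
    have ht : 0 < sx / sy := div_pos hpx hpy
    obtain ⟨f, hf⟩ := hcov x
    obtain ⟨g, hg⟩ := hcov y
    -- a first index in the support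
    obtain ⟨i₀, hi₀⟩ : ∃ i, A x i ≠ 0 := by
      by_contra hcon
      push Not at hcon
      have : sx = 0 := Finset.sum_eq_zero fun i _ => hcon i
      linarith
    have hi₀' : A y i₀ ≠ 0 := by
      intro h0
      apply hi₀
      rw [hco', h0, mul_zero]
    obtain ⟨k₀, hk₀, hk₀A, hk₀C⟩ := hAface x f hf i₀ hi₀
    obtain ⟨l₀, hl₀, hl₀A, hl₀C⟩ := hAface y g hg i₀ hi₀'
    -- replace y by its negative if necessary
    have main2 : ∀ (z : EuclideanSpace ℝ (Fin (n + 1))) (h : I), (∀ k, 0 ≤ D.c h k z) →
        (∀ i, A x i = sx / sy * A z i) → (∃ l, D.vtx h l = D.vtx f k₀) → 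
        (x : EuclideanSpace ℝ (Fin (n + 1))) = (sx / sy) • z := by
      intro z h hh hz hl
      obtain ⟨l₁, hl₁⟩ := hl
      have hCC : ∀ v, C x v = sx / sy * C z v := by
        rintro ⟨i, s⟩
        by_cases h0 : A x i = 0
        · have h0' : A z i = 0 := by
            have := hz i
            rw [h0] at this
            rcases mul_eq_zero.1 this.symm with h | h
            · exact absurd h ht.ne'
            · exact h
          have e1 := hCnn (x : EuclideanSpace ℝ (Fin (n + 1))) (i, true)
          have e2 := hCnn (x : EuclideanSpace ℝ (Fin (n + 1))) (i, false)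
          have e3 := hCnn z (i, true)
          have e4 := hCnn z (i, false)
          simp only [A] at h0 h0'
          cases s
          · rw [show C x (i, false) = 0 by linarith, show C z (i, false) = 0 by linarith, mul_zero]
          · rw [show C x (i, true) = 0 by linarith, show C z (i, true) = 0 by linarith, mul_zero]
        · have h0' : A z i ≠ 0 := by
            intro h'
            apply h0
            rw [hz, h', mul_zero]
          obtain ⟨k, hk, hkA, hkC⟩ := hAface x f hf i h0
          obtain ⟨l, hl, hlA, hlC⟩ := hAface z h hh i h0'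
          have hsame : D.vtx h l = D.vtx f k := by
            by_cases hii : i = i₀
            · -- the same vertex as the first one
              have hk' : D.vtx f k = D.vtx f k₀ := by
                by_contra hne
                apply hopp f k₀ k
                rw [Prod.ext_iff]
                refine ⟨by rw [hk, hk₀, hii], ?_⟩
                simp only
                by_contra h2
                apply hne
                rw [Prod.ext_iff]
                refine ⟨by rw [hk, hk₀, hii], ?_⟩
                revert h2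
                cases (D.vtx f k).2 <;> cases (D.vtx f k₀).2 <;> simp
              have hl' : D.vtx h l = D.vtx h l₁ := by
                by_contra hne
                apply hopp h l₁ l
                rw [Prod.ext_iff]
                refine ⟨by rw [hl, hl₁, hk₀, hii], ?_⟩
                simp only
                by_contra h2
                apply hne
                rw [Prod.ext_iff]
                refine ⟨by rw [hl, hl₁, hk₀, hii], ?_⟩
                revert h2
                cases (D.vtx h l).2 <;> cases (D.vtx h l₁).2 <;> simp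
              rw [hl', hl₁, hk']
            · by_contra hne
              apply hA.nobad f h k₀ k l₁ l (by rw [hk₀, hk]; exact fun h => hii h.symm) hl₁
              rw [Prod.ext_iff]
              refine ⟨by rw [hl, hk], ?_⟩
              simp only
              by_contra h2
              apply hne
              rw [Prod.ext_iff]
              refine ⟨by rw [hl, hk], ?_⟩
              revert h2
              cases (D.vtx h l).2 <;> cases (D.vtx f k).2 <;> simp
          by_cases hs : (i, s) = D.vtx f k
          · rw [hs, ← hkA, hz i, hlA, hsame]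
          · have h1 : C x (i, s) = 0 := by
              by_contra hne
              have hne' := hne
              rw [hC f x hf] at hne'
              obtain ⟨k2, hk2⟩ := coef_ne_zero hne'
              apply hopp f k k2
              rw [hk2, Prod.ext_iff]
              refine ⟨hk.symm, ?_⟩
              simp only
              by_contra h2
              apply hs
              rw [Prod.ext_iff]
              refine ⟨hk.symm, ?_⟩
              revert h2
              cases s <;> cases (D.vtx f k).2 <;> simp
            have h2 : C z (i, s) = 0 := by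
              by_contra hne
              have hne' := hne
              rw [hC h z hh] at hne'
              obtain ⟨k2, hk2⟩ := coef_ne_zero hne'
              apply hopp h l k2
              rw [hk2, hsame, Prod.ext_iff]
              refine ⟨hk.symm, ?_⟩
              simp only
              by_contra h2
              apply hs
              rw [Prod.ext_iff]
              refine ⟨hk.symm, ?_⟩
              revert h2
              cases s <;> cases (D.vtx f k).2 <;> simp
            rw [h1, h2, mul_zero]
      conv_lhs => rw [← hCsum (x : EuclideanSpace ℝ (Fin (n + 1)))]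
      conv_rhs => rw [← hCsum z]
      rw [Finset.smul_sum]
      refine Finset.sum_congr rfl fun v _ => ?_
      rw [hCC v, mul_smul]
    have hnx : ‖(x : EuclideanSpace ℝ (Fin (n + 1)))‖ = 1 := by
      have := x.2; rwa [mem_sphere_zero_iff_norm] at this
    have hny : ‖(y : EuclideanSpace ℝ (Fin (n + 1)))‖ = 1 := by
      have := y.2; rwa [mem_sphere_zero_iff_norm] at this
    by_cases hsgn : D.vtx g l₀ = D.vtx f k₀
    · left
      have h1 := main2 y g hg hco' ⟨l₀, hsgn⟩
      have h2 : sx / sy = 1 := by
        have := congrArg norm h1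
        rw [norm_smul, hnx, hny, mul_one, Real.norm_eq_abs, abs_of_pos ht] at this
        exact this.symm
      rw [h2, one_smul] at h1
      exact h1
    · right
      obtain ⟨g', hg'⟩ := hA.anti g
      have hgc : ∀ k, D.c g' k (-(y : EuclideanSpace ℝ (Fin (n + 1)))) = D.c g k.rev y := by
        intro k
        have e1 : -(y : EuclideanSpace ℝ (Fin (n + 1))) =
            ∑ l, D.c g l.rev y • D.u (D.vtx g' l) := by
          conv_lhs => rw [← D.span g (y : EuclideanSpace ℝ (Fin (n + 1)))]
          rw [← Finset.sum_neg_distrib]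
          refine Fintype.sum_equiv Fin.revPerm _ _ fun l => ?_
          simp only [Fin.revPerm_apply, Fin.rev_rev]
          rw [hg', Fin.rev_rev, hA.u_neg, smul_neg]
        rw [e1, c_of_sum]
      have h1 := main2 (-(y : EuclideanSpace ℝ (Fin (n + 1)))) g' (fun k => by rw [hgc]; exact hg _)
        (fun i => by rw [hAneg]; exact hco' i) ⟨l₀.rev, by
          rw [hg', Fin.rev_rev, Prod.ext_iff]
          refine ⟨by rw [hl₀, hk₀], ?_⟩
          simp only
          by_contra h2
          apply hsgn
          rw [Prod.ext_iff]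
          refine ⟨by rw [hl₀, hk₀], ?_⟩
          revert h2
          cases (D.vtx g l₀).2 <;> cases (D.vtx f k₀).2 <;> simp⟩
      have h2 : sx / sy = 1 := by
        have := congrArg norm h1
        rw [norm_smul, norm_neg, hnx, hny, mul_one, Real.norm_eq_abs, abs_of_pos ht] at this
        exact this.symm
      rw [h2, one_smul] at h1
      exact h1
  have hsurj : Function.Surjective Ψ := by
    rintro ⟨x, hx⟩
    obtain ⟨hx1, hx2, f, hf⟩ := (mem_space D).1 hx
    -- the point in the cone of f
    let y₀ : EuclideanSpace ℝ (Fin (n + 1)) := ∑ k, x (D.vtx f k).1 • D.u (D.vtx f k)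
    have hcy : ∀ k, D.c f k y₀ = x (D.vtx f k).1 := fun k => c_of_sum f _ k
    obtain ⟨i₀, hi₀⟩ : ∃ i, x i ≠ 0 := by
      by_contra hcon
      push Not at hcon
      have : ∑ i, x i = 0 := Finset.sum_eq_zero fun i _ => hcon i
      rw [this] at hx2
      exact zero_ne_one hx2
    obtain ⟨k₀, hk₀⟩ := hf i₀ hi₀
    have hy₀ : y₀ ≠ 0 := by
      intro h0
      have := hcy k₀
      rw [h0, map_zero, hk₀] at this
      exact hi₀ this.symm
    have hny : 0 < ‖y₀‖ := norm_pos_iff.2 hy₀
    let y : Metric.sphere (0 : EuclideanSpace ℝ (Fin (n + 1))) 1 :=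
      ⟨(‖y₀‖)⁻¹ • y₀, by
        rw [mem_sphere_zero_iff_norm, norm_smul, norm_inv, norm_norm]
        exact inv_mul_cancel₀ hny.ne'⟩
    have hcy' : ∀ k, D.c f k y = (‖y₀‖)⁻¹ * x (D.vtx f k).1 := by
      intro k
      show D.c f k ((‖y₀‖)⁻¹ • y₀) = _
      rw [map_smul, hcy, smul_eq_mul]
    have hcn : ∀ k, 0 ≤ D.c f k y := by
      intro k
      rw [hcy']
      exact mul_nonneg (inv_nonneg.2 hny.le) (hx1 _)
    have hAy : ∀ i, A y i = (‖y₀‖)⁻¹ * x i := by
      intro i
      by_cases hi : A y i = 0
      · rw [hi]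
        by_cases hxi : x i = 0
        · rw [hxi, mul_zero]
        · exfalso
          obtain ⟨k, hk⟩ := hf i hxi
          have h1 : C y (D.vtx f k) = (‖y₀‖)⁻¹ * x i := by
            rw [hC f y hcn, coef_vtx, hcy', hk]
          have h2 : C y (D.vtx f k) ≠ 0 := by
            rw [h1]
            exact mul_ne_zero (inv_ne_zero hny.ne') hxi
          have h3 : A y i = C y (D.vtx f k) := by
            rw [← hk]
            exact hA1 y (D.vtx f k).1 (D.vtx f k).2 h2
          rw [h3] at hi
          exact h2 hi
      · obtain ⟨k, hk, hkA, -⟩ := hAface y f hcn i hi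
        rw [hkA, hC f y hcn, coef_vtx, hcy', hk]
    refine ⟨Quot.mk _ y, ?_⟩
    apply Subtype.ext
    show WithLp.toLp 2 (fun i => A y i / ∑ j, A y j) = x
    have hs : ∑ j, A y j = (‖y₀‖)⁻¹ := by
      rw [Finset.sum_congr rfl fun j _ => hAy j, ← Finset.mul_sum, hx2, mul_one]
    ext i
    show A y i / ∑ j, A y j = x i
    rw [hs, hAy]
    field_simp
  have : CompactSpace (Quot (rel (n + 1))) := inferInstance
  exact ⟨(Continuous.homeoOfEquivCompactToT2 (f := Equiv.ofBijective Ψ ⟨hinj, hsurj⟩) hΨc).symm⟩

end

end Pool.Agent.Q134.Fan
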