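import Mathlib

/-!
Counting along a ray: for finitely many affine functions `s ↦ a v + s * b v` on `(0, ∞)`, the number of
exits minus the number of entrances of the region where all of them are positive.
-/

set_option autoImplicit false

namespace Pool.Agent.Q134.Fan

open Finset

variable {ι : Type*} [DecidableEq ι]

/-- at the zero of the `v`-th function, which is positive, all other functions are positive -/
def Ev (W : Finset ι) (a b : ι → ℝ) (v : ι) : Prop :=
  a v * b v < 0 ∧ ∀ w ∈ W, w ≠ v → 0 < a w - a v / b v * b w

open Classical in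
/-- signed contribution of the event at `v` -/
noncomputable def sg (W : Finset ι) (a b : ι → ℝ) (v : ι) : ℤ :=
  if Ev W a b v then (if b v < 0 then 1 else -1) else 0

open Classical in
theorem ray_count (b : ι → ℝ) (W : Finset ι) :
    ∀ a : ι → ℝ, (∀ v ∈ W, a v ≠ 0) → (∀ v ∈ W, b v ≠ 0) →
      (∀ v ∈ W, ∀ w ∈ W, v ≠ w → a v * b w ≠ a w * b v) →
      ∑ v ∈ W, sg W a b v =
        (if ∀ v ∈ W, 0 < a v then 1 else 0) - (if ∀ v ∈ W, 0 < b v then 1 else 0) := by
  classical
  induction W using Finset.induction_on with
  | empty => intro a _ _ _; simp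
  | insert u W hu IH =>
    intro a ha hb hab
    have hau : a u ≠ 0 := ha u (mem_insert_self _ _)
    have hbu : b u ≠ 0 := hb u (mem_insert_self _ _)
    have haW : ∀ v ∈ W, a v ≠ 0 := fun v hv => ha v (mem_insert_of_mem hv)
    have hbW : ∀ v ∈ W, b v ≠ 0 := fun v hv => hb v (mem_insert_of_mem hv)
    have habW : ∀ v ∈ W, ∀ w ∈ W, v ≠ w → a v * b w ≠ a w * b v :=
      fun v hv w hw => hab v (mem_insert_of_mem hv) w (mem_insert_of_mem hw)
    have hne : ∀ v ∈ W, v ≠ u := fun v hv h => hu (h ▸ hv)
    set a' : ι → ℝ := fun w => a w - a u / b u * b w with ha'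
    have ha'W : ∀ v ∈ W, a' v ≠ 0 := by
      intro v hv h
      apply hab v (mem_insert_of_mem hv) u (mem_insert_self _ _) (hne v hv)
      have h' : a v - a u / b u * b v = 0 := h
      field_simp at h'
      linarith
    have ha'b : ∀ v ∈ W, ∀ w ∈ W, v ≠ w → a' v * b w ≠ a' w * b v := by
      intro v hv w hw hvw h
      apply habW v hv w hw hvw
      have h' : (a v - a u / b u * b v) * b w = (a w - a u / b u * b w) * b v := h
      linarith
    have hshift : ∀ v ∈ W, ∀ w, a' w - a' v / b v * b w = a w - a v / b v * b w := by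
      intro v hv w
      have := hbW v hv
      simp only [ha']
      field_simp
      ring
    have IHa := IH a haW hbW habW
    have IHa' := IH a' ha'W hbW ha'b
    rw [sum_insert hu]
    -- events of W in insert u W
    have hEv : ∀ v ∈ W, Ev (insert u W) a b v ↔ Ev W a b v ∧ 0 < a u - a v / b v * b u := by
      intro v hv
      unfold Ev
      constructor
      · rintro ⟨h1, h2⟩
        exact ⟨⟨h1, fun w hw hwv => h2 w (mem_insert_of_mem hw) hwv⟩,
          h2 u (mem_insert_self _ _) (hne v hv).symm⟩
      · rintro ⟨⟨h1, h2⟩, h3⟩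
        refine ⟨h1, fun w hw hwv => ?_⟩
        rcases mem_insert.1 hw with rfl | hw
        · exact h3
        · exact h2 w hw hwv
    have hEvu : Ev (insert u W) a b u ↔ a u * b u < 0 ∧ ∀ w ∈ W, 0 < a' w := by
      unfold Ev
      constructor
      · rintro ⟨h1, h2⟩
        exact ⟨h1, fun w hw => h2 w (mem_insert_of_mem hw) (hne w hw)⟩
      · rintro ⟨h1, h2⟩
        refine ⟨h1, fun w hw hwu => ?_⟩
        rcases mem_insert.1 hw with rfl | hw
        · exact absurd rfl hwu
        · exact h2 w hw
    have hEv' : ∀ v ∈ W, Ev W a' b v ↔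
        (0 < -(a v / b v) + a u / b u) ∧ ∀ w ∈ W, w ≠ v → 0 < a w - a v / b v * b w := by
      intro v hv
      unfold Ev
      have hbv := hbW v hv
      have e1 : a' v * b v = -((-(a v / b v) + a u / b u) * (b v) ^ 2) := by
        simp only [ha']
        field_simp
        ring
      have hb2 : 0 < (b v) ^ 2 := by positivity
      constructor
      · rintro ⟨h1, h2⟩
        refine ⟨?_, fun w hw hwv => by rw [← hshift v hv w]; exact h2 w hw hwv⟩
        rw [e1] at h1
        by_contra hcon
        push Not at hcon
        nlinarith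
      · rintro ⟨h1, h2⟩
        refine ⟨?_, fun w hw hwv => by rw [hshift v hv w]; exact h2 w hw hwv⟩
        rw [e1]
        nlinarith
    have hEv0 : ∀ v ∈ W, Ev W a b v ↔
        (0 < -(a v / b v)) ∧ ∀ w ∈ W, w ≠ v → 0 < a w - a v / b v * b w := by
      intro v hv
      unfold Ev
      have hbv := hbW v hv
      have e1 : a v * b v = -((-(a v / b v)) * (b v) ^ 2) := by
        field_simp
      have hb2 : 0 < (b v) ^ 2 := by positivity
      constructor
      · rintro ⟨h1, h2⟩
        refine ⟨?_, h2⟩
        rw [e1] at h1
        by_contra hcon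
        push Not at hcon
        nlinarith
      · rintro ⟨h1, h2⟩
        refine ⟨?_, h2⟩
        rw [e1]
        nlinarith
    have hX : (∀ v ∈ insert u W, 0 < a v) ↔ 0 < a u ∧ ∀ v ∈ W, 0 < a v := by
      simp
    have hY : (∀ v ∈ insert u W, 0 < b v) ↔ 0 < b u ∧ ∀ v ∈ W, 0 < b v := by
      simp
    rcases lt_or_gt_of_ne hau with hau' | hau' <;> rcases lt_or_gt_of_ne hbu with hbu' | hbu'
    · -- both negative
      have h1 : sg (insert u W) a b u = 0 := by
        unfold sg
        rw [if_neg]
        rw [hEvu]
        rintro ⟨h, -⟩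
        nlinarith
      have h2 : ∀ v ∈ W, sg (insert u W) a b v = 0 := by
        intro v hv
        unfold sg
        rw [if_neg]
        rw [hEv v hv, hEv0 v hv]
        rintro ⟨⟨h3, -⟩, h4⟩
        have : -(a v / b v) * b u < 0 := mul_neg_of_pos_of_neg h3 hbu'
        linarith
      rw [h1, sum_eq_zero h2, if_neg, if_neg]
      · simp
      · rw [hY]; rintro ⟨h, -⟩; linarith
      · rw [hX]; rintro ⟨h, -⟩; linarith
    · -- a u < 0 < b u : entrance
      have h2 : ∀ v ∈ W, sg (insert u W) a b v = sg W a' b v := by
        intro v hv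
        unfold sg
        have : Ev (insert u W) a b v ↔ Ev W a' b v := by
          rw [hEv v hv, hEv' v hv, hEv0 v hv]
          have e2 : a u - a v / b v * b u = (-(a v / b v) + a u / b u) * b u := by
            field_simp
            ring
          have e3 : 0 < a u - a v / b v * b u ↔ 0 < -(a v / b v) + a u / b u := by
            rw [e2]
            exact mul_pos_iff_of_pos_right hbu'
          rw [e3]
          have e4 : a u / b u < 0 := div_neg_of_neg_of_pos hau' hbu'
          constructor
          · rintro ⟨⟨h3, h4⟩, h5⟩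
            exact ⟨h5, h4⟩
          · rintro ⟨h5, h4⟩
            exact ⟨⟨by linarith, h4⟩, h5⟩
        simp only [this]
      rw [sum_congr rfl h2, IHa']
      have h1 : sg (insert u W) a b u = -(if ∀ v ∈ W, 0 < a' v then 1 else 0) := by
        unfold sg
        have hneg : a u * b u < 0 := mul_neg_of_neg_of_pos hau' hbu'
        by_cases h : ∀ w ∈ W, 0 < a' w
        · rw [if_pos (hEvu.2 ⟨hneg, h⟩), if_neg (not_lt.2 hbu'.le), if_pos h]
        · rw [if_neg (fun h' => h (hEvu.1 h').2), if_neg h]
          simp
      rw [h1, if_neg (show ¬ ∀ v ∈ insert u W, 0 < a v by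
        rw [hX]; rintro ⟨h, -⟩; linarith)]
      have : (∀ v ∈ insert u W, 0 < b v) ↔ ∀ v ∈ W, 0 < b v := by
        rw [hY]; exact ⟨fun h => h.2, fun h => ⟨hbu', h⟩⟩
      simp only [this]
      ring
    · -- b u < 0 < a u : exit
      have h2 : ∀ v ∈ W, sg (insert u W) a b v = sg W a b v - sg W a' b v := by
        intro v hv
        unfold sg
        have e2 : a u - a v / b v * b u = (-(a v / b v) + a u / b u) * b u := by
          field_simp
          ring
        have e3 : 0 < a u - a v / b v * b u ↔ -(a v / b v) + a u / b u < 0 := by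
          rw [e2]
          constructor
          · intro h
            by_contra hcon
            push Not at hcon
            nlinarith
          · intro h
            exact mul_pos_of_neg_of_neg h hbu'
        have e4 : a u / b u < 0 := div_neg_of_pos_of_neg hau' hbu'
        have hne0 : -(a v / b v) + a u / b u ≠ 0 := by
          intro h
          apply hab v (mem_insert_of_mem hv) u (mem_insert_self _ _) (hne v hv)
          have hbv := hbW v hv
          field_simp at h
          linarith
        by_cases hall : ∀ w ∈ W, w ≠ v → 0 < a w - a v / b v * b w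
        · by_cases hpos : 0 < -(a v / b v)
          · by_cases hlt : 0 < -(a v / b v) + a u / b u
            · rw [if_neg, if_pos ((hEv0 v hv).2 ⟨hpos, hall⟩), if_pos ((hEv' v hv).2 ⟨hlt, hall⟩)]
              · simp
              · rw [hEv v hv, e3]
                rintro ⟨-, h⟩
                linarith
            · have hlt' : -(a v / b v) + a u / b u < 0 := lt_of_le_of_ne (not_lt.1 hlt) hne0
              rw [if_pos ((hEv v hv).2 ⟨(hEv0 v hv).2 ⟨hpos, hall⟩, e3.2 hlt'⟩),
                if_pos ((hEv0 v hv).2 ⟨hpos, hall⟩), if_neg (fun h => hlt ((hEv' v hv).1 h).1)]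
              simp
          · rw [if_neg (fun h => hpos ((hEv0 v hv).1 ((hEv v hv).1 h).1).1),
              if_neg (fun h => hpos ((hEv0 v hv).1 h).1), if_neg]
            · simp
            · rw [hEv' v hv]
              rintro ⟨h, -⟩
              linarith
        · rw [if_neg (fun h => hall ((hEv0 v hv).1 ((hEv v hv).1 h).1).2),
            if_neg (fun h => hall ((hEv0 v hv).1 h).2),
            if_neg (fun h => hall ((hEv' v hv).1 h).2)]
          simp
      rw [sum_congr rfl h2, sum_sub_distrib, IHa, IHa']
      have h1 : sg (insert u W) a b u = (if ∀ v ∈ W, 0 < a' v then 1 else 0) := by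
        unfold sg
        have hneg : a u * b u < 0 := mul_neg_of_pos_of_neg hau' hbu'
        by_cases h : ∀ w ∈ W, 0 < a' w
        · rw [if_pos (hEvu.2 ⟨hneg, h⟩), if_pos hbu', if_pos h]
        · rw [if_neg (fun h' => h (hEvu.1 h').2), if_neg h]
      rw [h1, if_neg (show ¬ ∀ v ∈ insert u W, 0 < b v by
        rw [hY]; rintro ⟨h, -⟩; linarith)]
      have : (∀ v ∈ insert u W, 0 < a v) ↔ ∀ v ∈ W, 0 < a v := by
        rw [hX]; exact ⟨fun h => h.2, fun h => ⟨hau', h⟩⟩
      simp only [this]
      ring
    · -- both positive
      have h1 : sg (insert u W) a b u = 0 := by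
        unfold sg
        rw [if_neg]
        rw [hEvu]
        rintro ⟨h, -⟩
        nlinarith
      have h2 : ∀ v ∈ W, sg (insert u W) a b v = sg W a b v := by
        intro v hv
        unfold sg
        have : Ev (insert u W) a b v ↔ Ev W a b v := by
          rw [hEv v hv]
          constructor
          · exact fun h => h.1
          · intro h
            refine ⟨h, ?_⟩
            have h3 := ((hEv0 v hv).1 h).1
            have : 0 < -(a v / b v) * b u := mul_pos h3 hbu'
            linarith
        simp only [this]
      rw [h1, sum_congr rfl h2, IHa]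
      have h3 : (∀ v ∈ insert u W, 0 < a v) ↔ ∀ v ∈ W, 0 < a v := by
        rw [hX]; exact ⟨fun h => h.2, fun h => ⟨hau', h⟩⟩
      have h4 : (∀ v ∈ insert u W, 0 < b v) ↔ ∀ v ∈ W, 0 < b v := by
        rw [hY]; exact ⟨fun h => h.2, fun h => ⟨hbu', h⟩⟩
      simp only [h3, h4]
      ring

end Pool.Agent.Q134.Fan
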